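import Mathlib

set_option autoImplicit false

/-! The finitary linear group `GL_∞(𝔽₂)` is a countable group with trivial center and finite double
centralizers whose Markov topology differs from its centralizer topology. -/

namespace Pool.Agent.Results.MP_ff84c4_al.FinitaryLinear

open Topology Set

/-- The Markov topology: a set is open iff it is open in every Hausdorff group topology. -/
def markovTopology (G : Type) [Group G] : TopologicalSpace G :=
  sSup {t : TopologicalSpace G | @IsTopologicalGroup G t _ ∧ @T2Space G t}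

/-- The centralizer topology, generated by the sets `{x | x b x⁻¹ = a b a⁻¹}`. -/
def centralizerTopology (G : Type) [Group G] : TopologicalSpace G :=
  TopologicalSpace.generateFrom {S | ∃ a b : G, S = {x | x * b * x⁻¹ = a * b * a⁻¹}}

/-- a countable vector space over the field with two elements -/
abbrev V : Type := ℕ →₀ ZMod 2

/-- basis vectors -/
noncomputable def e (i : ℕ) : V := Finsupp.single i 1

lemma e_same (i : ℕ) : e i i = 1 := by simp [e]

lemma e_ne {i j : ℕ} (h : i ≠ j) : e i j = 0 := by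
  simp only [e]
  exact Finsupp.single_eq_of_ne (Ne.symm h)

/-- `g` is trivial in all rows and columns of index at least `n` -/
def Triv (n : ℕ) (g : V ≃ₗ[ZMod 2] V) : Prop :=
  ∀ i, n ≤ i → g (e i) = e i ∧ ∀ v, g v i = v i

lemma Triv.mono {m n : ℕ} (h : m ≤ n) {g : V ≃ₗ[ZMod 2] V} (hg : Triv m g) : Triv n g :=
  fun i hi => hg i (h.trans hi)

lemma ext_basis {g h : V ≃ₗ[ZMod 2] V} (H : ∀ i, g (e i) = h (e i)) : g = h := by
  have : (g : V →ₗ[ZMod 2] V) = (h : V →ₗ[ZMod 2] V) := by
    apply Finsupp.lhom_ext'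
    intro i
    apply LinearMap.ext_ring
    exact H i
  exact LinearEquiv.toLinearMap_injective this

/-- the finitary general linear group -/
noncomputable def GLinf : Subgroup (V ≃ₗ[ZMod 2] V) where
  carrier := {g | ∃ n, Triv n g}
  one_mem' := ⟨0, fun i _ => ⟨rfl, fun v => rfl⟩⟩
  mul_mem' := by
    rintro g h ⟨m, hg⟩ ⟨n, hh⟩
    refine ⟨max m n, fun i hi => ⟨?_, fun v => ?_⟩⟩
    · rw [LinearEquiv.mul_apply, (hh i (le_of_max_le_right hi)).1,
        (hg i (le_of_max_le_left hi)).1]
    · rw [LinearEquiv.mul_apply, (hg i (le_of_max_le_left hi)).2,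
        (hh i (le_of_max_le_right hi)).2]
  inv_mem' := by
    rintro g ⟨n, hg⟩
    refine ⟨n, fun i hi => ⟨?_, fun v => ?_⟩⟩
    · have h := (hg i hi).1
      calc g⁻¹ (e i) = g⁻¹ (g (e i)) := by rw [h]
        _ = e i := g.symm_apply_apply _
    · have h := (hg i hi).2 (g⁻¹ v)
      rw [← h]
      congr 1
      exact g.apply_symm_apply v

/-- the group -/
abbrev G : Type := GLinf

/-- action on vectors -/
noncomputable def act (g : G) (v : V) : V := (g : V ≃ₗ[ZMod 2] V) v

lemma act_mul (g h : G) (v : V) : act (g * h) v = act g (act h v) := rfl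

lemma act_one (v : V) : act 1 v = v := rfl

lemma act_inv_act (g : G) (v : V) : act g⁻¹ (act g v) = v := by
  rw [← act_mul, inv_mul_cancel, act_one]

lemma act_act_inv (g : G) (v : V) : act g (act g⁻¹ v) = v := by
  rw [← act_mul, mul_inv_cancel, act_one]

lemma G_ext {g h : G} (H : ∀ i, act g (e i) = act h (e i)) : g = h :=
  Subtype.ext (ext_basis H)

/-- the transvection `v ↦ v + v_j e_i` as a linear map -/
noncomputable def tvL (i j : ℕ) : V →ₗ[ZMod 2] V where
  toFun v := v + v j • e i
  map_add' v w := by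
    rw [Finsupp.add_apply, add_smul]; abel
  map_smul' c v := by
    rw [Finsupp.smul_apply, smul_add, smul_eq_mul, mul_smul]; rfl

lemma tvL_tvL {i j : ℕ} (h : i ≠ j) (v : V) : tvL i j (tvL i j v) = v := by
  change (v + v j • e i) + (v + v j • e i) j • e i = v
  rw [Finsupp.add_apply, Finsupp.smul_apply, e_ne h, smul_zero, add_zero]
  ext k
  simp only [Finsupp.add_apply, Finsupp.smul_apply]
  rw [add_assoc, CharTwo.add_self_eq_zero, add_zero]

/-- the transvection -/
noncomputable def tv (i j : ℕ) (h : i ≠ j) : G :=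
  ⟨LinearEquiv.ofInvolutive (tvL i j) (tvL_tvL h), by
    refine ⟨max i j + 1, fun k hk => ⟨?_, fun v => ?_⟩⟩
    · change e k + (e k) j • e i = e k
      rw [e_ne (by omega), zero_smul, add_zero]
    · change (v + v j • e i) k = v k
      rw [Finsupp.add_apply, Finsupp.smul_apply, e_ne (by omega), smul_zero, add_zero]⟩

lemma act_tv (i j : ℕ) (h : i ≠ j) (v : V) : act (tv i j h) v = v + v j • e i := rfl

/-- elements trivial from `n` on -/
def Gn (n : ℕ) : Set G := {g | Triv n (g : V ≃ₗ[ZMod 2] V)}

lemma Gn_finite (n : ℕ) : (Gn n).Finite := by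
  let f : G → (Fin n → Fin n → ZMod 2) := fun g i k => act g (e i) k
  refine Set.Finite.of_finite_image (f := f) (Set.toFinite _) ?_
  intro g hg h hh hgh
  apply G_ext
  intro i
  by_cases hi : n ≤ i
  · rw [show act g (e i) = e i from (hg i hi).1, show act h (e i) = e i from (hh i hi).1]
  · push Not at hi
    ext k
    by_cases hk : n ≤ k
    · rw [show act g (e i) k = (e i) k from (hg k hk).2 _,
        show act h (e i) k = (e i) k from (hh k hk).2 _]
    · push Not at hk
      exact congrFun (congrFun hgh ⟨i, hi⟩) ⟨k, hk⟩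

lemma mem_Gn_of_commute {n : ℕ} {y : G}
    (hy : ∀ i j (h : i ≠ j), n ≤ i → n ≤ j → y * tv i j h = tv i j h * y) : y ∈ Gn n := by
  -- fundamental identity
  have key : ∀ i j, i ≠ j → n ≤ i → n ≤ j → ∀ v : V, v j • act y (e i) = (act y v) j • e i := by
    intro i j h hi hj v
    have h1 : act (y * tv i j h) v = act (tv i j h * y) v := by rw [hy i j h hi hj]
    rw [act_mul, act_mul, act_tv, act_tv] at h1
    have h2 : act y (v + v j • e i) = act y v + v j • act y (e i) := by
      change (y : V ≃ₗ[ZMod 2] V) _ = (y : V ≃ₗ[ZMod 2] V) _ + _ • (y : V ≃ₗ[ZMod 2] V) _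
      rw [map_add, map_smul]
    rw [h2] at h1
    exact add_left_cancel h1
  have hval : ∀ i j, i ≠ j → n ≤ i → n ≤ j → (act y (e j)) j = 1 := by
    intro i j h hi hj
    have h1 := key i j h hi hj (e j)
    rw [e_same, one_smul] at h1
    by_contra hne
    have h0 : (act y (e j)) j = 0 := by
      have : ∀ a : ZMod 2, a ≠ 1 → a = 0 := by decide
      exact this _ hne
    rw [h0, zero_smul] at h1
    have h3 : act y⁻¹ (act y (e i)) = act y⁻¹ 0 := by rw [h1]
    rw [act_inv_act] at h3
    have h4 : act y⁻¹ (0 : V) = 0 := by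
      change ((y⁻¹ : G) : V ≃ₗ[ZMod 2] V) 0 = 0
      exact map_zero _
    rw [h4] at h3
    have h5 := DFunLike.congr_fun h3 i
    rw [e_same] at h5
    simp at h5
  intro i hi
  constructor
  · have h1 := key i (i + 1) (by omega) hi (by omega) (e (i + 1))
    rw [e_same, one_smul, hval i (i + 1) (by omega) hi (by omega), one_smul] at h1
    exact h1
  · intro v
    have h1 := key (i + 1) i (by omega) (by omega) hi v
    have h2 := key (i + 1) i (by omega) (by omega) hi (e i)
    rw [e_same, one_smul, hval (i + 1) i (by omega) (by omega) hi, one_smul] at h2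
    rw [h2] at h1
    have h3 := DFunLike.congr_fun h1 (i + 1)
    rw [Finsupp.smul_apply, Finsupp.smul_apply, e_same, smul_eq_mul, smul_eq_mul, mul_one,
      mul_one] at h3
    exact h3.symm

lemma commute_of_mem_Gn {n : ℕ} {g : G} (hg : g ∈ Gn n) {i j : ℕ} (h : i ≠ j) (hi : n ≤ i)
    (hj : n ≤ j) : g * tv i j h = tv i j h * g := by
  apply G_ext
  intro k
  rw [act_mul, act_mul, act_tv, act_tv]
  have h1 : act g (e k + (e k) j • e i) = act g (e k) + (e k) j • act g (e i) := by
    change (g : V ≃ₗ[ZMod 2] V) _ = (g : V ≃ₗ[ZMod 2] V) _ + _ • (g : V ≃ₗ[ZMod 2] V) _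
    rw [map_add, map_smul]
  rw [h1, show act g (e i) = e i from (hg i hi).1,
    show act g (e k) j = (e k) j from (hg j hj).2 _]

lemma center_eq_bot : Subgroup.center G = ⊥ := by
  rw [eq_bot_iff]
  intro y hy
  have h0 : y ∈ Gn 0 := mem_Gn_of_commute fun i j h _ _ =>
    ((Subgroup.mem_center_iff.1 hy) (tv i j h)).symm
  rw [Subgroup.mem_bot]
  exact G_ext fun i => (h0 i (Nat.zero_le i)).1

lemma exists_Gn (g : G) : ∃ n, g ∈ Gn n := g.2

lemma double_centralizer_finite (F : Set G) (hF : F.Finite) :
    (Subgroup.centralizer (Subgroup.centralizer F : Set G) : Set G).Finite := by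
  choose f hf using exists_Gn
  obtain ⟨n, hn⟩ : ∃ n, ∀ g ∈ F, g ∈ Gn n := by
    obtain ⟨n, hn⟩ := (hF.image f).bddAbove
    exact ⟨n, fun g hg => Triv.mono (hn ⟨g, hg, rfl⟩) (hf g)⟩
  refine (Gn_finite n).subset fun y hy => mem_Gn_of_commute fun i j h hi hj => ?_
  have hm : tv i j h ∈ Subgroup.centralizer F := by
    rw [Subgroup.mem_centralizer_iff]
    intro g hg
    exact commute_of_mem_Gn (hn g hg) h hi hj
  exact ((Subgroup.mem_centralizer_iff.1 hy) _ hm).symm

instance : Countable G := by
  have : (⋃ n, Gn n) = (Set.univ : Set G) := by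
    ext g
    simp only [mem_iUnion, mem_univ, iff_true]
    exact exists_Gn g
  rw [← Set.countable_univ_iff, ← this]
  exact countable_iUnion fun n => (Gn_finite n).countable

/-- topology of pointwise convergence on the discrete set `V` -/
noncomputable def pw : TopologicalSpace G :=
  @TopologicalSpace.induced G (V → V) act (@Pi.topologicalSpace V (fun _ => V) (fun _ => ⊥))

lemma pw_eval_open (v w : V) : IsOpen[pw] {g : G | act g v = w} := by
  letI : TopologicalSpace V := ⊥
  haveI : DiscreteTopology V := ⟨rfl⟩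
  letI : TopologicalSpace G := pw
  have hc : Continuous (act : G → (V → V)) := continuous_induced_dom
  have : Continuous (fun g : G => act g v) := (continuous_apply v).comp hc
  exact (isOpen_discrete {w}).preimage this

lemma pw_continuous_iff {Y : Type} [TopologicalSpace Y] (f : Y → G)
    (h : ∀ (v : V) (y : Y), {z : Y | act (f z) v = act (f y) v} ∈ 𝓝 y) :
    @Continuous Y G _ pw f := by
  letI : TopologicalSpace V := ⊥
  haveI : DiscreteTopology V := ⟨rfl⟩
  letI : TopologicalSpace G := pw
  apply continuous_induced_rng.2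
  apply continuous_pi
  intro v
  rw [continuous_iff_continuousAt]
  intro y
  rw [ContinuousAt, nhds_discrete V, Filter.tendsto_pure]
  exact h v y

lemma pw_group : @IsTopologicalGroup G pw _ := by
  letI : TopologicalSpace G := pw
  refine @IsTopologicalGroup.mk G _ _ (@ContinuousMul.mk G _ _ ?_) (@ContinuousInv.mk G _ _ ?_)
  · apply pw_continuous_iff
    rintro v ⟨g, h⟩
    have h1 : {x : G | act x (act h v) = act g (act h v)} ∈ 𝓝 g :=
      (pw_eval_open _ _).mem_nhds rfl
    have h2 : {x : G | act x v = act h v} ∈ 𝓝 h := (pw_eval_open _ _).mem_nhds rfl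
    refine Filter.mem_of_superset (prod_mem_nhds h1 h2) ?_
    rintro ⟨x, y⟩ ⟨hx, hy⟩
    change act (x * y) v = act (g * h) v
    rw [act_mul, act_mul, show act y v = act h v from hy]
    exact hx
  · apply pw_continuous_iff
    intro v g
    have h1 : {x : G | act x (act g⁻¹ v) = v} ∈ 𝓝 g :=
      (pw_eval_open _ _).mem_nhds (act_act_inv g v)
    refine Filter.mem_of_superset h1 ?_
    intro x hx
    have hx' : act x (act g⁻¹ v) = v := hx
    change act x⁻¹ v = act g⁻¹ v
    conv_lhs => rw [← hx']
    exact act_inv_act x _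

lemma pw_t2 : @T2Space G pw := by
  letI : TopologicalSpace V := ⊥
  haveI : DiscreteTopology V := ⟨rfl⟩
  letI : TopologicalSpace G := pw
  have hinj : Function.Injective (act : G → (V → V)) := by
    intro g h hgh
    exact G_ext fun i => congrFun hgh (e i)
  exact (IsEmbedding.mk ⟨rfl⟩ hinj).t2Space

lemma pw_nhds_one {U : Set G} (hU : U ∈ @nhds G pw 1) :
    ∃ A : Finset V, ∀ g : G, (∀ v ∈ A, act g v = v) → g ∈ U := by
  letI : TopologicalSpace V := ⊥
  haveI : DiscreteTopology V := ⟨rfl⟩
  letI : TopologicalSpace G := pw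
  have hind : IsInducing (act : G → (V → V)) := ⟨rfl⟩
  rw [hind.nhds_eq_comap, Filter.mem_comap] at hU
  obtain ⟨W, hW, hWU⟩ := hU
  rw [nhds_pi, Filter.mem_pi] at hW
  obtain ⟨I, hI, t, ht, htW⟩ := hW
  refine ⟨hI.toFinset, fun g hg => hWU (htW ?_)⟩
  intro v hv
  have : act g v = v := hg v (by simpa using hv)
  rw [this]
  exact mem_of_mem_nhds (ht v)

/-- **MP_ff84c4_al, Q1 (disproved, countable version).** There is a countable group with trivial
center and finite double centralizers whose Markov topology is not its centralizer topology. -/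
theorem result :
    ∃ (G : Type) (_ : Group G), Countable G ∧ Subgroup.center G = ⊥ ∧
      (∀ F : Set G, F.Finite →
        (Subgroup.centralizer (Subgroup.centralizer F : Set G) : Set G).Finite) ∧
      markovTopology G ≠ centralizerTopology G := by
  refine ⟨G, inferInstance, inferInstance, center_eq_bot, double_centralizer_finite, ?_⟩
  intro heq
  let b : G := tv 0 1 (by omega)
  have h1 : IsOpen[centralizerTopology G] {x : G | x * b * x⁻¹ = 1 * b * 1⁻¹} :=
    TopologicalSpace.isOpen_generateFrom_of_mem ⟨1, b, rfl⟩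
  rw [← heq] at h1
  have h2 : IsOpen[pw] {x : G | x * b * x⁻¹ = 1 * b * 1⁻¹} :=
    (isOpen_sSup_iff.1 h1) pw ⟨pw_group, pw_t2⟩
  have h3 : {x : G | x * b * x⁻¹ = 1 * b * 1⁻¹} ∈ @nhds G pw 1 :=
    @IsOpen.mem_nhds G pw 1 _ h2 rfl
  obtain ⟨A, hA⟩ := pw_nhds_one h3
  -- choose m large
  obtain ⟨m, hm2, hm⟩ : ∃ m, 2 ≤ m ∧ ∀ v ∈ A, v m = 0 := by
    obtain ⟨M, hM⟩ := ((A.biUnion (fun v => v.support)).finite_toSet).bddAbove
    refine ⟨max 2 (M + 1), le_max_left _ _, fun v hv => ?_⟩
    by_contra hne
    have : max 2 (M + 1) ≤ M := hM (by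
      simp only [Finset.coe_biUnion, mem_iUnion, Finset.mem_coe]
      exact ⟨v, hv, Finsupp.mem_support_iff.2 hne⟩)
    omega
  have hx := hA (tv 1 m (by omega)) (fun v hv => by
    rw [act_tv, hm v hv, zero_smul, add_zero])
  have hcomm : tv 1 m (by omega) * b = b * tv 1 m (by omega) := by
    have hx' : tv 1 m (by omega) * b * (tv 1 m (by omega))⁻¹ = 1 * b * 1⁻¹ := hx
    rw [inv_one, mul_one, one_mul] at hx'
    exact mul_inv_eq_iff_eq_mul.1 hx'
  have h4 : act (tv 1 m (by omega) * b) (e m) = act (b * tv 1 m (by omega)) (e m) := by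
    rw [hcomm]
  rw [act_mul, act_mul, act_tv, act_tv, act_tv, act_tv] at h4
  have h5 := DFunLike.congr_fun h4 0
  simp only [Finsupp.add_apply, Finsupp.smul_apply, smul_eq_mul] at h5
  rw [e_ne (show m ≠ 1 by omega), e_ne (show m ≠ 0 by omega), e_ne (show (1 : ℕ) ≠ 0 by omega),
    e_same, e_same, e_same] at h5
  norm_num at h5

end Pool.Agent.Results.MP_ff84c4_al.FinitaryLinear
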